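import Pool.Agent.H15LD.Few

/-!
# Additive level sets in blocks of two binary digits
-/

set_option autoImplicit false
set_option maxHeartbeats 4000000

open Finset

namespace Pool.Agent.H15LD

/-- the value of a pair of sets of binary digits -/
def vl {m : ℕ} (w : Fin m → ℕ) (p : Finset (Fin m) × Finset (Fin m)) : ℕ :=
  ∑ k ∈ p.1, w k + 2 * ∑ k ∈ p.2, w k

/-- the kind of each block -/
def kd {m : ℕ} (p : Finset (Fin m) × Finset (Fin m)) : Fin m → Fin 3 := fun k =>
  if k ∈ p.1 \ p.2 then 1 else if k ∈ p.2 \ p.1 then 2 else 0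

lemma kd_eq {m : ℕ} {p q : Finset (Fin m) × Finset (Fin m)} (h : kd p = kd q) :
    p.1 \ p.2 = q.1 \ q.2 ∧ p.2 \ p.1 = q.2 \ q.1 := by
  have h1 : ∀ (p : Finset (Fin m) × Finset (Fin m)) k, k ∈ p.1 \ p.2 ↔ kd p k = 1 := by
    intro p k
    unfold kd
    split_ifs with h1 h2
    · simp [h1]
    · simp [h1]
    · simp [h1]
  have h2 : ∀ (p : Finset (Fin m) × Finset (Fin m)) k, k ∈ p.2 \ p.1 ↔ kd p k = 2 := by
    intro p k
    unfold kd
    split_ifs with h1 h2
    · simp only [mem_sdiff] at h1 ⊢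
      constructor
      · rintro ⟨a, b⟩; exact absurd h1.1 b
      · intro h; exact absurd h (by decide)
    · simp [h2]
    · constructor
      · intro h; exact absurd h h2
      · intro h; exact absurd h (by decide)
  constructor
  · ext k; rw [h1, h1, h]
  · ext k; rw [h2, h2, h]

variable {H : Type*} [AddCommGroup H] [DecidableEq H]

theorem three_pow (m : ℕ) (α β : Fin m → H) (θ : H) (w : Fin m → ℕ)
    (hw : ∀ S T : Finset (Fin m), ∑ k ∈ S, w k = ∑ k ∈ T, w k → S = T)
    (E : Finset (Finset (Fin m) × Finset (Fin m)))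
    (hE : ∀ p, p ∈ E ↔ ∑ k ∈ p.1, α k + ∑ k ∈ p.2, β k = θ)
    (hfree : ∀ a d : ℕ, 0 < d → ¬ ∀ i < 4, ∃ p ∈ E, vl w p = a + i * d) :
    E.card ≤ 3 ^ m * (univ.image (fun S : Finset (Fin m) => ∑ k ∈ S, α k)).card := by
  classical
  have key : ∀ p ∈ E, ∀ q ∈ E, kd p = kd q → ∑ k ∈ p.1 ∩ p.2, α k = ∑ k ∈ q.1 ∩ q.2, α k → 
      ∑ k ∈ p.1 ∩ p.2, w k ≤ ∑ k ∈ q.1 ∩ q.2, w k → p = q := by
    rintro ⟨s, t⟩ hp ⟨s', t'⟩ hq hk hα hle
    obtain ⟨h1, h2⟩ := kd_eq hk
    simp only at h1 h2 hα hle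
    set P := s \ t with hP
    set P' := t \ s with hP'
    set y := s ∩ t with hy
    set y' := s' ∩ t' with hy'
    have es : s = P ∪ y := by rw [hP, hy]; exact (sdiff_union_inter s t).symm
    have et : t = P' ∪ y := by rw [hP', hy, inter_comm]; exact (sdiff_union_inter t s).symm
    have es' : s' = P ∪ y' := by rw [h1, hy']; exact (sdiff_union_inter s' t').symm
    have et' : t' = P' ∪ y' := by rw [h2, hy', inter_comm]; exact (sdiff_union_inter t' s').symm
    have d1 : Disjoint P y := disjoint_sdiff_inter s t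
    have d2 : Disjoint P' y := by rw [hy, inter_comm]; exact disjoint_sdiff_inter t s
    have d3 : Disjoint P y' := by rw [h1]; exact disjoint_sdiff_inter s' t'
    have d4 : Disjoint P' y' := by rw [h2, hy', inter_comm]; exact disjoint_sdiff_inter t' s'
    have e1 := (hE _).mp hp
    have e2 := (hE _).mp hq
    simp only at e1 e2
    rw [es, et, sum_union d1, sum_union d2] at e1
    rw [es', et', sum_union d3, sum_union d4] at e2
    have hβ : ∑ k ∈ y, β k = ∑ k ∈ y', β k := by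
      have : ∑ k ∈ P, α k + ∑ k ∈ y, α k + (∑ k ∈ P', β k + ∑ k ∈ y, β k) =
        ∑ k ∈ P, α k + ∑ k ∈ y, α k + (∑ k ∈ P', β k + ∑ k ∈ y', β k) := by
        rw [e1, hα, e2]
      exact add_left_cancel (add_left_cancel this)
    by_cases hyy : y = y'
    · rw [es, et, es', et', hyy]
    exfalso
    have hne : ∑ k ∈ y, w k ≠ ∑ k ∈ y', w k := fun h => hyy (hw _ _ h)
    have hlt : ∑ k ∈ y, w k < ∑ k ∈ y', w k := lt_of_le_of_ne hle hne
    have f1 : ∀ (a b : Finset (Fin m)), (a = y ∨ a = y') → (b = y ∨ b = y') → (P ∪ a, P' ∪ b) ∈ E := by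
      intro a b ha hb
      rw [hE]
      simp only
      have g1 : ∑ k ∈ P ∪ a, α k = ∑ k ∈ P, α k + ∑ k ∈ y, α k := by
        rcases ha with rfl | rfl
        · rw [sum_union d1]
        · rw [sum_union d3, hα]
      have g2 : ∑ k ∈ P' ∪ b, β k = ∑ k ∈ P', β k + ∑ k ∈ y, β k := by
        rcases hb with rfl | rfl
        · rw [sum_union d2]
        · rw [sum_union d4, hβ]
      rw [g1, g2, e1]
    have f2 : ∀ (a b : Finset (Fin m)), (a = y ∨ a = y') → (b = y ∨ b = y') →
        vl w (P ∪ a, P' ∪ b) = ∑ k ∈ P, w k + 2 * ∑ k ∈ P', w k + ∑ k ∈ a, w k + 2 * ∑ k ∈ b, w k := by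
      intro a b ha hb
      unfold vl
      simp only
      have g1 : ∑ k ∈ P ∪ a, w k = ∑ k ∈ P, w k + ∑ k ∈ a, w k := by
        rcases ha with rfl | rfl
        · rw [sum_union d1]
        · rw [sum_union d3]
      have g2 : ∑ k ∈ P' ∪ b, w k = ∑ k ∈ P', w k + ∑ k ∈ b, w k := by
        rcases hb with rfl | rfl
        · rw [sum_union d2]
        · rw [sum_union d4]
      rw [g1, g2]; ring
    refine hfree (∑ k ∈ P, w k + 2 * ∑ k ∈ P', w k + 3 * ∑ k ∈ y, w k) 
      (∑ k ∈ y', w k - ∑ k ∈ y, w k) (by omega) ?_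
    intro i hi
    interval_cases i
    · exact ⟨_, f1 y y (Or.inl rfl) (Or.inl rfl), by rw [f2 y y (Or.inl rfl) (Or.inl rfl)]; omega⟩
    · exact ⟨_, f1 y' y (Or.inr rfl) (Or.inl rfl), by rw [f2 y' y (Or.inr rfl) (Or.inl rfl)]; omega⟩
    · exact ⟨_, f1 y y' (Or.inl rfl) (Or.inr rfl), by rw [f2 y y' (Or.inl rfl) (Or.inr rfl)]; omega⟩
    · exact ⟨_, f1 y' y' (Or.inr rfl) (Or.inr rfl), by rw [f2 y' y' (Or.inr rfl) (Or.inr rfl)]; omega⟩
  calc E.card ≤ ((univ : Finset (Fin m → Fin 3)) ×ˢ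
        (univ.image (fun S : Finset (Fin m) => ∑ k ∈ S, α k))).card := by
        refine card_le_card_of_injOn (fun p => (kd p, ∑ k ∈ p.1 ∩ p.2, α k)) ?_ ?_
        · intro p _
          simp only [Finset.mem_coe, mem_product, mem_univ, true_and, mem_image]
          exact ⟨_, rfl⟩
        · intro p hp q hq hpq
          obtain ⟨h1, h2⟩ := Prod.mk.inj hpq
          rcases le_total (∑ k ∈ p.1 ∩ p.2, w k) (∑ k ∈ q.1 ∩ q.2, w k) with h | h
          · exact key p hp q hq h1 h2 h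
          · exact (key q hq p hp h1.symm h2.symm h).symm
    _ = _ := by
        rw [card_product]
        simp

lemma M_sum : ∑ t : Fin (11 + 2), M 11 t = 2510 := by decide +kernel

theorem core (m : ℕ) (α β : Fin m → H) (θ : H) (w : Fin m → ℕ)
    (hw : ∀ S T : Finset (Fin m), ∑ k ∈ S, w k = ∑ k ∈ T, w k → S = T)
    (E : Finset (Finset (Fin m) × Finset (Fin m)))
    (hE : ∀ p, p ∈ E ↔ ∑ k ∈ p.1, α k + ∑ k ∈ p.2, β k = θ)
    (hfree : ∀ a d : ℕ, 0 < d → ¬ ∀ i < 4, ∃ p ∈ E, vl w p = a + i * d) :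
    E.card ^ 12 ≤ 15421440 ^ m := by
  classical
  have h1 := three_pow m α β θ w hw E hE hfree
  set N := (univ.image (fun S : Finset (Fin m) => ∑ k ∈ S, α k)).card with hN
  let F : Finset (Fin m) → Finset (Finset (Fin m)) := fun t =>
    univ.filter (fun S : Finset (Fin m) => ∑ k ∈ S, α k = θ - ∑ k ∈ t, β k)
  obtain ⟨t0, -, ht0⟩ := exists_max_image (univ : Finset (Finset (Fin m))) (fun t => (F t).card) ⟨∅, mem_univ _⟩
  have h2 : E.card ≤ 2 ^ m * (F t0).card := by
    rw [card_eq_sum_card_fiberwise (f := Prod.snd) (t := univ) (by intro x _; simp)]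
    calc ∑ t : Finset (Fin m), (E.filter (fun p => p.2 = t)).card ≤ ∑ t : Finset (Fin m), (F t0).card := by
          refine sum_le_sum fun t _ => ?_
          refine le_trans ?_ (ht0 t (mem_univ _))
          refine card_le_card_of_injOn Prod.fst ?_ ?_
          · intro p hp
            obtain ⟨hp1, hp2⟩ := mem_filter.mp hp
            have := (hE p).mp hp1
            simp only [F, coe_filter, mem_univ, true_and, Set.mem_ofPred_eq]
            rw [← hp2, ← this]
            abel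
          · intro p hp q hq hpq
            obtain ⟨-, hp2⟩ := mem_filter.mp hp
            obtain ⟨-, hq2⟩ := mem_filter.mp hq
            exact Prod.ext hpq (hp2.trans hq2.symm)
      _ = 2 ^ m * (F t0).card := by simp
  have h3 : N * (F t0).card ^ 11 ≤ 2510 ^ m := by
    have := few_sums m 11 α (θ - ∑ k ∈ t0, β k)
    rw [M_sum] at this
    exact this
  calc E.card ^ 12 = E.card * E.card ^ 11 := by ring
    _ ≤ (3 ^ m * N) * (2 ^ m * (F t0).card) ^ 11 := Nat.mul_le_mul h1 (Nat.pow_le_pow_left h2 11)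
    _ = 3 ^ m * (2 ^ m) ^ 11 * (N * (F t0).card ^ 11) := by ring
    _ ≤ 3 ^ m * (2 ^ m) ^ 11 * 2510 ^ m := Nat.mul_le_mul_left _ h3
    _ = 15421440 ^ m := by
        rw [← pow_mul, mul_comm m 11, pow_mul, ← mul_pow, ← mul_pow]
        norm_num

end Pool.Agent.H15LD
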