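import Pool.Agent.H15LD.Core

/-!
# Level sets of digit-additive functions, even bases
-/

set_option autoImplicit false
set_option maxHeartbeats 4000000

open Finset

namespace Pool.Agent.H15LD

/-- `A` is a level set of a function `x ↦ ∑ j < n, φ j (x_j)` of the digits `x_j` of `x < b ^ n` in base `b`,
with values in an abelian group -/
def IsLevel (b n : ℕ) (A : Finset ℕ) : Prop :=
  ∃ (H : Type) (_ : AddCommGroup H) (φ : ℕ → ℕ → H) (θ : H),
    ∀ x, x ∈ A ↔ x < b ^ n ∧ ∑ j ∈ range n, φ j (x / b ^ j % b) = θ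

/-- `A` contains no arithmetic progression with `k` terms -/
def APFree (k : ℕ) (A : Finset ℕ) : Prop := ∀ a d : ℕ, 0 < d → ¬ ∀ i < k, a + i * d ∈ A

lemma sum_lt_pow (B : ℕ) (hB : 0 < B) (d : ℕ → ℕ) (hd : ∀ j, d j < B) (m : ℕ) :
    ∑ j ∈ range m, d j * B ^ j < B ^ m := by
  induction m with
  | zero => simp
  | succ m ih =>
    rw [sum_range_succ, pow_succ]
    have h1 : d m * B ^ m ≤ (B - 1) * B ^ m := Nat.mul_le_mul_right _ (by have := hd m; omega)
    have h2 : (B - 1) * B ^ m + B ^ m = B ^ m * B := by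
      obtain ⟨c, rfl⟩ : ∃ c, B = c + 1 := ⟨B - 1, by omega⟩
      simp only [Nat.add_sub_cancel]; ring
    omega

lemma digit (B : ℕ) (hB : 0 < B) (d : ℕ → ℕ) (hd : ∀ j, d j < B) (m top k : ℕ) (hk : k < m) :
    (∑ j ∈ range m, d j * B ^ j + top * B ^ m) / B ^ k % B = d k := by
  induction m generalizing top with
  | zero => omega
  | succ m ih =>
    have e : ∑ j ∈ range (m + 1), d j * B ^ j + top * B ^ (m + 1) =
        ∑ j ∈ range m, d j * B ^ j + (d m + top * B) * B ^ m := by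
      rw [sum_range_succ]; ring
    rw [e]
    rcases Nat.lt_succ_iff_lt_or_eq.mp hk with h | h
    · exact ih _ h
    · subst h
      rw [Nat.add_mul_div_right _ _ (pow_pos hB k), Nat.div_eq_of_lt (sum_lt_pow B hB d hd k), zero_add,
        Nat.add_mul_mod_self_right, Nat.mod_eq_of_lt (hd k)]

lemma top_digit (B : ℕ) (hB : 0 < B) (d : ℕ → ℕ) (hd : ∀ j, d j < B) (m top : ℕ) :
    (∑ j ∈ range m, d j * B ^ j + top * B ^ m) / B ^ m = top := by
  rw [Nat.add_mul_div_right _ _ (pow_pos hB m), Nat.div_eq_of_lt (sum_lt_pow B hB d hd m), zero_add]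

lemma expand (B x m : ℕ) : x = ∑ j ∈ range m, (x / B ^ j % B) * B ^ j + x / B ^ m * B ^ m := by
  induction m with
  | zero => simp
  | succ m ih =>
    rw [sum_range_succ]
    have h1 : x / B ^ m = x / B ^ m % B + x / B ^ (m + 1) * B := by
      rw [pow_succ, ← Nat.div_div_eq_div_mul, mul_comm (x / B ^ m / B) B]
      exact (Nat.mod_add_div _ _).symm
    have h2 : x / B ^ m * B ^ m = x / B ^ m % B * B ^ m + x / B ^ (m + 1) * B ^ (m + 1) := by
      conv_lhs => rw [h1]
      ring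
    omega

lemma sum_pairs {H : Type*} [AddCommMonoid H] (f : ℕ → H) (m : ℕ) :
    ∑ j ∈ range (2 * m), f j = ∑ k ∈ range m, (f (2 * k) + f (2 * k + 1)) := by
  induction m with
  | zero => simp
  | succ m ih =>
    rw [show 2 * (m + 1) = 2 * m + 1 + 1 by ring, sum_range_succ, sum_range_succ, ih, sum_range_succ]
    rw [add_assoc]

section frame

variable (a m r : ℕ)

/-- the frames -/
abbrev Frame : Type := (Fin m → Fin a) × (Fin m → Fin a) × Fin ((2 * a) ^ r)

variable {a m r}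

/-- the word in the block `k` -/
def wd (f : Frame a m r) (p : Finset (Fin m) × Finset (Fin m)) (k : Fin m) : ℕ :=
  ((f.1 k : ℕ) + if k ∈ p.1 then a else 0) + (2 * a) * (2 * (f.2.1 k : ℕ) + if k ∈ p.2 then 1 else 0)

lemma wd_mod (f : Frame a m r) (p : Finset (Fin m) × Finset (Fin m)) (k : Fin m) :
    wd f p k % (2 * a) = (f.1 k : ℕ) + if k ∈ p.1 then a else 0 := by
  unfold wd
  rw [Nat.add_mul_mod_self_left, Nat.mod_eq_of_lt]
  have := (f.1 k).2
  split_ifs <;> omega

lemma wd_div (f : Frame a m r) (p : Finset (Fin m) × Finset (Fin m)) (k : Fin m) :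
    wd f p k / (2 * a) = 2 * (f.2.1 k : ℕ) + if k ∈ p.2 then 1 else 0 := by
  unfold wd
  have h := (f.1 k).2
  rw [Nat.add_mul_div_left _ _ (by omega), Nat.div_eq_of_lt, zero_add]
  split_ifs <;> omega

lemma wd_lt (f : Frame a m r) (p : Finset (Fin m) × Finset (Fin m)) (k : Fin m) :
    wd f p k < (2 * a) * (2 * a) := by
  have h1 := wd_div f p k
  have h := (f.1 k).2
  have h2 := (f.2.1 k).2
  rw [← Nat.div_lt_iff_lt_mul (by omega), h1]
  split_ifs <;> omega

/-- the word as a function on the natural numbers -/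
def wn (f : Frame a m r) (p : Finset (Fin m) × Finset (Fin m)) (k : ℕ) : ℕ :=
  if h : k < m then wd f p ⟨k, h⟩ else 0

lemma wn_lt (ha : 0 < a) (f : Frame a m r) (p : Finset (Fin m) × Finset (Fin m)) (k : ℕ) :
    wn f p k < (2 * a) * (2 * a) := by
  unfold wn
  split_ifs with h
  · exact wd_lt f p _
  · positivity

lemma wn_fin (f : Frame a m r) (p : Finset (Fin m) × Finset (Fin m)) (k : Fin m) :
    wn f p (k : ℕ) = wd f p k := by
  unfold wn
  rw [dif_pos k.2]

/-- the number -/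
def xx (f : Frame a m r) (p : Finset (Fin m) × Finset (Fin m)) : ℕ :=
  ∑ k ∈ range m, wn f p k * ((2 * a) * (2 * a)) ^ k + (f.2.2 : ℕ) * ((2 * a) * (2 * a)) ^ m

/-- the weights -/
def wt (a m : ℕ) (k : Fin m) : ℕ := a * ((2 * a) * (2 * a)) ^ (k : ℕ)

lemma xx_eq (f : Frame a m r) (p : Finset (Fin m) × Finset (Fin m)) :
    xx f p = xx f (∅, ∅) + vl (wt a m) p := by
  unfold xx vl
  rw [sum_range, sum_range]
  have h1 : ∀ (S : Finset (Fin m)), ∑ k ∈ S, wt a m k = ∑ k : Fin m, if k ∈ S then wt a m k else 0 := by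
    intro S
    rw [← sum_filter, filter_mem_eq_inter, univ_inter]
  rw [h1, h1, mul_sum]
  have h2 : ∀ k : Fin m, wn f p (k : ℕ) * ((2 * a) * (2 * a)) ^ (k : ℕ) =
      wn f (∅, ∅) (k : ℕ) * ((2 * a) * (2 * a)) ^ (k : ℕ) + (if k ∈ p.1 then wt a m k else 0) +
        2 * (if k ∈ p.2 then wt a m k else 0) := by
    intro k
    rw [wn_fin, wn_fin]
    unfold wd wt
    simp only [notMem_empty, if_false]
    split_ifs <;> ring
  simp_rw [h2, sum_add_distrib]
  ring

lemma xx_low (ha : 0 < a) (f : Frame a m r) (p : Finset (Fin m) × Finset (Fin m)) (k : Fin m) :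
    xx f p / (2 * a) ^ (2 * (k : ℕ)) % (2 * a) = (f.1 k : ℕ) + if k ∈ p.1 then a else 0 := by
  have h1 := digit ((2 * a) * (2 * a)) (by positivity) (wn f p) (wn_lt ha f p) m (f.2.2 : ℕ) k k.2
  rw [← wd_mod f p k, ← wn_fin, ← h1, Nat.mod_mul_right_mod]
  unfold xx
  congr 2
  rw [pow_mul, pow_two]

lemma xx_high (ha : 0 < a) (f : Frame a m r) (p : Finset (Fin m) × Finset (Fin m)) (k : Fin m) :
    xx f p / (2 * a) ^ (2 * (k : ℕ) + 1) % (2 * a) = 2 * (f.2.1 k : ℕ) + if k ∈ p.2 then 1 else 0 := by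
  have h1 := digit ((2 * a) * (2 * a)) (by positivity) (wn f p) (wn_lt ha f p) m (f.2.2 : ℕ) k k.2
  rw [← wd_div f p k, ← wn_fin, ← h1, Nat.mod_mul_right_div_self, Nat.div_div_eq_div_mul]
  unfold xx
  congr 2
  rw [pow_succ, pow_mul, pow_two]

lemma xx_top (ha : 0 < a) (f : Frame a m r) (p : Finset (Fin m) × Finset (Fin m)) (j : ℕ) :
    xx f p / (2 * a) ^ (2 * m + j) = (f.2.2 : ℕ) / (2 * a) ^ j := by
  have h1 := top_digit ((2 * a) * (2 * a)) (by positivity) (wn f p) (wn_lt ha f p) m (f.2.2 : ℕ)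
  rw [pow_add, ← Nat.div_div_eq_div_mul, pow_mul, pow_two]
  congr 1

lemma xx_lt (ha : 0 < a) (f : Frame a m r) (p : Finset (Fin m) × Finset (Fin m)) :
    xx f p < (2 * a) ^ (2 * m + r) := by
  have h1 := xx_top ha f p r
  rw [Nat.div_eq_of_lt f.2.2.2] at h1
  by_contra h
  push Not at h
  have : 0 < xx f p / (2 * a) ^ (2 * m + r) := Nat.div_pos h (by positivity)
  omega

lemma xx_surj (ha : 0 < a) (x : ℕ) (hx : x < (2 * a) ^ (2 * m + r)) :
    ∃ (f : Frame a m r) (p : Finset (Fin m) × Finset (Fin m)), xx f p = x := by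
  set B := (2 * a) * (2 * a) with hB
  have hB0 : 0 < B := by positivity
  have htop : x / B ^ m < (2 * a) ^ r := by
    rw [Nat.div_lt_iff_lt_mul (by positivity), hB, ← pow_two, ← pow_mul, ← pow_add, add_comm r]
    exact hx
  let u : Fin m → ℕ := fun k => x / B ^ (k : ℕ) % B % (2 * a)
  let v : Fin m → ℕ := fun k => x / B ^ (k : ℕ) % B / (2 * a)
  have hu : ∀ k, u k < 2 * a := fun k => Nat.mod_lt _ (by omega)
  have hv : ∀ k, v k < 2 * a := fun k => by
    simp only [v]
    rw [Nat.div_lt_iff_lt_mul (by omega)]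
    exact Nat.mod_lt _ hB0
  have hvi : ∀ k, v k / 2 < a := fun k => by have := hv k; omega
  refine ⟨(fun k => ⟨u k % a, Nat.mod_lt _ ha⟩, fun k => ⟨v k / 2, hvi k⟩, ⟨x / B ^ m, htop⟩),
    (univ.filter (fun k => a ≤ u k), univ.filter (fun k => v k % 2 = 1)), ?_⟩
  conv_rhs => rw [expand B x m]
  unfold xx
  rw [sum_range, sum_range]
  congr 1
  refine sum_congr rfl fun k _ => ?_
  rw [wn_fin]
  congr 1
  unfold wd
  simp only [mem_filter, mem_univ, true_and]
  have e1 : (u k % a + if a ≤ u k then a else 0) = u k := by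
    split_ifs with h
    · rw [Nat.mod_eq_sub_mod h, Nat.mod_eq_of_lt (by have := hu k; omega)]; omega
    · rw [Nat.mod_eq_of_lt (by omega)]; rfl
  have e2 : (2 * (v k / 2) + if v k % 2 = 1 then 1 else 0) = v k := by
    split_ifs with h <;> omega
  rw [e1, e2]
  exact Nat.mod_add_div _ _

lemma wt_inj (ha : 0 < a) (S T : Finset (Fin m)) (h : ∑ k ∈ S, wt a m k = ∑ k ∈ T, wt a m k) : S = T := by
  classical
  have h1 : ∀ (S : Finset (Fin m)) (k : Fin m), (∑ k ∈ S, wt a m k) / ((2 * a) * (2 * a)) ^ (k : ℕ) % ((2 * a) * (2 * a)) =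
      if k ∈ S then a else 0 := by
    intro S k
    let d : ℕ → ℕ := fun j => if h : j < m then (if (⟨j, h⟩ : Fin m) ∈ S then a else 0) else 0
    have hd : ∀ j, d j < (2 * a) * (2 * a) := by
      intro j
      simp only [d]
      split_ifs
      · nlinarith
      · positivity
      · positivity
    have h2 := digit ((2 * a) * (2 * a)) (by positivity) d hd m 0 k k.2
    have h3 : d k = if k ∈ S then a else 0 := by simp only [d]; rw [dif_pos k.2]
    rw [h3] at h2
    rw [← h2]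
    congr 2
    rw [sum_range]
    rw [zero_mul, add_zero]
    have h4 : ∀ j : Fin m, d j = if j ∈ S then a else 0 := by
      intro j; simp only [d]; rw [dif_pos j.2]
    simp_rw [h4]
    have h5 : ∑ k ∈ S, wt a m k = ∑ k : Fin m, if k ∈ S then wt a m k else 0 := by
      rw [← sum_filter, filter_mem_eq_inter, univ_inter]
    rw [h5]
    refine sum_congr rfl fun j _ => ?_
    unfold wt
    split_ifs
    · rfl
    · simp
  ext k
  have h2 := h1 S k
  rw [h, h1 T k] at h2
  by_cases hS : k ∈ S <;> by_cases hT : k ∈ T <;> simp [hS, hT] at h2 ⊢ <;> omega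

/-- the fibre of a frame -/
theorem fibre_bound (ha : 0 < a) {H : Type*} [AddCommGroup H] (φ : ℕ → ℕ → H) (θ : H) (A : Finset ℕ)
    (hA : ∀ x, x ∈ A ↔ x < (2 * a) ^ (2 * m + r) ∧
      ∑ j ∈ range (2 * m + r), φ j (x / (2 * a) ^ j % (2 * a)) = θ)
    (hfree : APFree 4 A) (f : Frame a m r) :
    (univ.filter (fun p : Finset (Fin m) × Finset (Fin m) => xx f p ∈ A)).card ^ 12 ≤ 15421440 ^ m := by
  classical
  let c1 : H := ∑ k : Fin m, (φ (2 * (k : ℕ)) (f.1 k : ℕ) + φ (2 * (k : ℕ) + 1) (2 * (f.2.1 k : ℕ)))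
  let c2 : H := ∑ j ∈ range r, φ (2 * m + j) ((f.2.2 : ℕ) / (2 * a) ^ j % (2 * a))
  let α : Fin m → H := fun k => φ (2 * (k : ℕ)) ((f.1 k : ℕ) + a) - φ (2 * (k : ℕ)) (f.1 k : ℕ)
  let β : Fin m → H := fun k =>
    φ (2 * (k : ℕ) + 1) (2 * (f.2.1 k : ℕ) + 1) - φ (2 * (k : ℕ) + 1) (2 * (f.2.1 k : ℕ))
  refine core m α β (θ - c1 - c2) (wt a m) (wt_inj ha) _ ?_ ?_
  · intro p
    rw [mem_filter, hA]
    simp only [mem_univ, true_and, xx_lt ha f p]
    have h1 : ∑ j ∈ range (2 * m + r), φ j (xx f p / (2 * a) ^ j % (2 * a)) =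
        c1 + c2 + (∑ k ∈ p.1, α k + ∑ k ∈ p.2, β k) := by
      rw [sum_range_add, sum_pairs, sum_range]
      have e1 : ∑ j ∈ range r, φ (2 * m + j) (xx f p / (2 * a) ^ (2 * m + j) % (2 * a)) = c2 := by
        simp only [c2]
        refine sum_congr rfl fun j _ => ?_
        rw [xx_top ha f p j]
      have e2 : ∀ k : Fin m, φ (2 * (k : ℕ)) (xx f p / (2 * a) ^ (2 * (k : ℕ)) % (2 * a)) +
          φ (2 * (k : ℕ) + 1) (xx f p / (2 * a) ^ (2 * (k : ℕ) + 1) % (2 * a)) =
          (φ (2 * (k : ℕ)) (f.1 k : ℕ) + φ (2 * (k : ℕ) + 1) (2 * (f.2.1 k : ℕ))) +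
            (if k ∈ p.1 then α k else 0) + (if k ∈ p.2 then β k else 0) := by
        intro k
        rw [xx_low ha f p k, xx_high ha f p k]
        simp only [α, β]
        split_ifs <;> abel
      rw [sum_congr rfl (fun k _ => e2 k), sum_add_distrib, sum_add_distrib, e1]
      have e3 : ∀ (S : Finset (Fin m)) (g : Fin m → H), ∑ k ∈ S, g k = ∑ k : Fin m, if k ∈ S then g k else 0 := by
        intro S g
        rw [← sum_filter, filter_mem_eq_inter, univ_inter]
      rw [e3 p.1, e3 p.2]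
      simp only [c1]
      abel
    rw [h1]
    constructor
    · intro h; rw [← h]; abel
    · intro h; rw [h]; abel
  · intro a0 d hd hall
    refine hfree (xx f (∅, ∅) + a0) d hd ?_
    intro i hi
    obtain ⟨p, hp, hv⟩ := hall i hi
    have h1 := xx_eq f p
    rw [hv, ← add_assoc] at h1
    rw [← h1]
    exact (mem_filter.mp hp).2

theorem level_bound (ha : 0 < a) {H : Type*} [AddCommGroup H] (φ : ℕ → ℕ → H) (θ : H) (A : Finset ℕ)
    (hA : ∀ x, x ∈ A ↔ x < (2 * a) ^ (2 * m + r) ∧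
      ∑ j ∈ range (2 * m + r), φ j (x / (2 * a) ^ j % (2 * a)) = θ)
    (hfree : APFree 4 A) :
    A.card ^ 12 * 16777216 ^ m ≤ ((2 * a) ^ (2 * m + r)) ^ 12 * 15421440 ^ m := by
  classical
  let E : Frame a m r → Finset (Finset (Fin m) × Finset (Fin m)) := fun f =>
    univ.filter (fun p : Finset (Fin m) × Finset (Fin m) => xx f p ∈ A)
  have hne : (univ : Finset (Frame a m r)).Nonempty :=
    ⟨(fun _ => ⟨0, ha⟩, fun _ => ⟨0, ha⟩, ⟨0, by positivity⟩), mem_univ _⟩
  obtain ⟨f0, -, hf0⟩ := exists_max_image (univ : Finset (Frame a m r)) (fun f => (E f).card) hne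
  have h1 : A.card ≤ a ^ m * (a ^ m * (2 * a) ^ r) * (E f0).card := by
    calc A.card ≤ ((univ : Finset (Frame a m r)).biUnion (fun f => (E f).image (xx f))).card := by
          refine card_le_card fun x hx => ?_
          obtain ⟨f, p, hfp⟩ := xx_surj (m := m) (r := r) ha x ((hA x).mp hx).1
          rw [mem_biUnion]
          refine ⟨f, mem_univ _, mem_image.mpr ⟨p, ?_, hfp⟩⟩
          simp only [E, mem_filter, mem_univ, true_and]
          rw [hfp]; exact hx
      _ ≤ ∑ f : Frame a m r, ((E f).image (xx f)).card := card_biUnion_le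
      _ ≤ ∑ f : Frame a m r, (E f0).card :=
          sum_le_sum fun f _ => card_image_le.trans (hf0 f (mem_univ _))
      _ = _ := by
          rw [sum_const, card_univ, smul_eq_mul]
          simp
  have h2 : (E f0).card ^ 12 ≤ 15421440 ^ m := fibre_bound ha φ θ A hA hfree f0
  calc A.card ^ 12 * 16777216 ^ m ≤ (a ^ m * (a ^ m * (2 * a) ^ r) * (E f0).card) ^ 12 * 16777216 ^ m :=
        Nat.mul_le_mul_right _ (Nat.pow_le_pow_left h1 12)
    _ = (a ^ m * (a ^ m * (2 * a) ^ r)) ^ 12 * 16777216 ^ m * (E f0).card ^ 12 := by ring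
    _ ≤ (a ^ m * (a ^ m * (2 * a) ^ r)) ^ 12 * 16777216 ^ m * 15421440 ^ m := Nat.mul_le_mul_left _ h2
    _ = ((2 * a) ^ (2 * m + r)) ^ 12 * 15421440 ^ m := by
        have e1 : (16777216 : ℕ) ^ m = ((2 ^ m) * (2 ^ m)) ^ 12 := by
          rw [← mul_pow, ← pow_mul, mul_comm m 12, pow_mul]; norm_num
        have e2 : (2 * a) ^ (2 * m + r) = (a ^ m * (a ^ m * (2 * a) ^ r)) * (2 ^ m * 2 ^ m) := by
          have e3 : (2 * a) ^ (2 * m) = (a ^ m * a ^ m) * (2 ^ m * 2 ^ m) := by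
            rw [two_mul m, pow_add, mul_pow]; ring
          rw [pow_add, e3]; ring
        rw [e1, e2]; ring

end frame

end Pool.Agent.H15LD
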