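import Mathlib

/-!
# Few subset sums

If many subsets have the same sum then there are few subset sums (in any abelian group).
-/

set_option autoImplicit false
set_option maxHeartbeats 4000000

open Finset

namespace Pool.Agent.H15LD

/-- the larger one of `κ.choose t` and `κ.choose (t - 1)` -/
def M (κ t : ℕ) : ℕ := max (κ.choose t) (if t = 0 then 0 else κ.choose (t - 1))

lemma choose_le_M (κ t a : ℕ) (ha : a ≤ 1) : κ.choose (t - a) ≤ M κ t := by
  unfold M
  interval_cases a
  · simp
  · split_ifs with h
    · subst h; simp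
    · simp

/-- few subset sums -/
theorem few_sums {H : Type*} [AddCommGroup H] [DecidableEq H] (m κ : ℕ) (g : Fin m → H) (τ : H) :
    (univ.image (fun S : Finset (Fin m) => ∑ k ∈ S, g k)).card *
      (univ.filter (fun S : Finset (Fin m) => ∑ k ∈ S, g k = τ)).card ^ κ ≤
      (∑ t : Fin (κ + 2), M κ t) ^ m := by
  classical
  set I := univ.image (fun S : Finset (Fin m) => ∑ k ∈ S, g k) with hI
  set F := univ.filter (fun S : Finset (Fin m) => ∑ k ∈ S, g k = τ) with hF
  have hrep : ∀ h : H, ∃ S : Finset (Fin m), h ∈ I → ∑ k ∈ S, g k = h := by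
    intro h
    by_cases hh : h ∈ I
    · obtain ⟨S, -, hS⟩ := mem_image.mp hh
      exact ⟨S, fun _ => hS⟩
    · exact ⟨∅, fun h' => absurd h' hh⟩
  choose rep hrep using hrep
  let D : H × (Fin κ → Finset (Fin m)) → (Fin m → Fin (κ + 2)) := fun p k =>
    ⟨(if k ∈ rep p.1 then 1 else 0) + (univ.filter (fun i => k ∈ p.2 i)).card, by
      have h1 : (univ.filter (fun i => k ∈ p.2 i)).card ≤ κ := by
        have := card_le_univ (univ.filter (fun i => k ∈ p.2 i))
        simpa using this
      split_ifs <;> omega⟩
  set X := I ×ˢ Fintype.piFinset (fun _ : Fin κ => F) with hX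
  have hcard : X.card = I.card * F.card ^ κ := by
    rw [hX, card_product, Fintype.card_piFinset]; simp
  have hD : ∀ p k, ((D p k : Fin (κ + 2)) : ℕ) =
      (if k ∈ rep p.1 then 1 else 0) + (univ.filter (fun i => k ∈ p.2 i)).card := fun p k => rfl
  have hval : ∀ p ∈ X, ∑ k, ((D p k : Fin (κ + 2)) : ℕ) • g k = p.1 + κ • τ := by
    intro p hp
    obtain ⟨hp1, hp2⟩ := mem_product.mp hp
    have h1 : ∀ k, ((D p k : Fin (κ + 2)) : ℕ) • g k =
        (if k ∈ rep p.1 then g k else 0) + ∑ i : Fin κ, (if k ∈ p.2 i then g k else 0) := by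
      intro k
      rw [hD, add_smul]
      congr 1
      · split_ifs <;> simp
      · rw [← sum_filter, sum_const]
    simp_rw [h1]
    rw [sum_add_distrib]
    congr 1
    · rw [← sum_filter, filter_mem_eq_inter, univ_inter]
      exact hrep _ hp1
    · rw [sum_comm]
      have h2 : ∀ i : Fin κ, ∑ k, (if k ∈ p.2 i then g k else 0) = τ := by
        intro i
        have h3 := Fintype.mem_piFinset.mp hp2 i
        rw [hF, mem_filter] at h3
        rw [← sum_filter, filter_mem_eq_inter, univ_inter]
        exact h3.2
      simp_rw [h2]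
      simp
  rw [← hcard, Fintype.sum_pow, card_eq_sum_card_fiberwise (f := D) (t := univ) (by intro x _; simp)]
  refine sum_le_sum fun T _ => ?_
  rcases (X.filter (fun p => D p = T)).eq_empty_or_nonempty with he | ⟨p0, hp0⟩
  · rw [he]; simp
  obtain ⟨hp0X, hp0T⟩ := mem_filter.mp hp0
  have hfst : ∀ p ∈ X.filter (fun p => D p = T), p.1 = p0.1 := by
    intro p hp
    obtain ⟨hpX, hpT⟩ := mem_filter.mp hp
    have h1 := hval p hpX
    have h2 := hval p0 hp0X
    rw [hpT] at h1
    rw [hp0T] at h2
    have h3 : p.1 + κ • τ = p0.1 + κ • τ := by rw [← h1, ← h2]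
    exact add_right_cancel h3
  let a : Fin m → ℕ := fun k => if k ∈ rep p0.1 then 1 else 0
  have ha : ∀ k, a k ≤ 1 := fun k => by simp only [a]; split_ifs <;> omega
  calc (X.filter (fun p => D p = T)).card
      ≤ (Fintype.piFinset (fun k : Fin m => powersetCard ((T k : ℕ) - a k) (univ : Finset (Fin κ)))).card := by
        refine card_le_card_of_injOn (fun p k => univ.filter (fun i => k ∈ p.2 i)) ?_ ?_
        · intro p hp
          have hpT := (mem_filter.mp hp).2
          have hp1 := hfst p hp
          simp only [Finset.mem_coe, Fintype.mem_piFinset, mem_powersetCard, subset_univ, true_and]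
          intro k
          have h1 := hD p k
          rw [hpT, hp1] at h1
          simp only [a]
          omega
        · intro p hp q hq hpq
          have hp1 := hfst p hp
          have hq1 := hfst q hq
          refine Prod.ext (hp1.trans hq1.symm) ?_
          funext i
          ext k
          have h1 := congrFun hpq k
          simp only at h1
          have h2 : i ∈ univ.filter (fun i => k ∈ p.2 i) ↔ i ∈ univ.filter (fun i => k ∈ q.2 i) := by
            rw [h1]
          simpa using h2
    _ = ∏ k, κ.choose ((T k : ℕ) - a k) := by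
        rw [Fintype.card_piFinset]
        simp
    _ ≤ ∏ k, M κ (T k) := prod_le_prod' fun k _ => choose_le_M κ _ _ (ha k)

end Pool.Agent.H15LD
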