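import Pool.Agent.H15LD.Even

/-!
# Sharpness: Behrend's sets are level sets of digit-additive functions
-/

set_option autoImplicit false
set_option maxHeartbeats 4000000

open Finset

namespace Pool.Agent.H15LD

/-- `(d ^ 2, 0)` for small digits `d` and `(d ^ 2, 1)` for the others -/
def bf (b : ℕ) (_j d : ℕ) : ℤ × ℤ := ((d : ℤ) ^ 2, if 2 * d < b then 0 else 1)

/-- Behrend's sets -/
def beh (b n r : ℕ) : Finset ℕ :=
  (range (b ^ n)).filter (fun x => ∑ j ∈ range n, bf b j (x / b ^ j % b) = ((r : ℤ), 0))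

lemma beh_level (b n r : ℕ) : IsLevel b n (beh b n r) := by
  refine ⟨ℤ × ℤ, inferInstance, bf b, ((r : ℤ), 0), fun x => ?_⟩
  unfold beh
  rw [mem_filter, mem_range]

lemma mem_beh (b n r x : ℕ) : x ∈ beh b n r ↔ x < b ^ n ∧ ∑ j ∈ range n, (x / b ^ j % b) ^ 2 = r ∧
    ∀ j < n, 2 * (x / b ^ j % b) < b := by
  unfold beh
  rw [mem_filter, mem_range, Prod.ext_iff, Prod.fst_sum, Prod.snd_sum]
  simp only [bf]
  refine and_congr Iff.rfl (and_congr ?_ ?_)
  · norm_cast
  · rw [sum_eq_zero_iff_of_nonneg (by intro i _; split_ifs <;> norm_num)]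
    constructor
    · intro h j hj
      by_contra hc
      have := h j (mem_range.mpr hj)
      rw [if_neg hc] at this
      exact one_ne_zero this
    · intro h j hj
      rw [if_pos (h j (mem_range.mp hj))]

lemma beh_free (b n r : ℕ) (hb : 2 ≤ b) : APFree 3 (beh b n r) := by
  intro a d hd h
  have h0 := (mem_beh b n r _).mp (h 0 (by norm_num))
  have h1 := (mem_beh b n r _).mp (h 1 (by norm_num))
  have h2 := (mem_beh b n r _).mp (h 2 (by norm_num))
  obtain ⟨x, hx⟩ : ∃ x, x = a + 0 * d := ⟨_, rfl⟩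
  obtain ⟨y, hy⟩ : ∃ y, y = a + 1 * d := ⟨_, rfl⟩
  obtain ⟨z, hz⟩ : ∃ z, z = a + 2 * d := ⟨_, rfl⟩
  rw [← hx] at h0
  rw [← hy] at h1
  rw [← hz] at h2
  have hsum : x + z = 2 * y := by omega
  have ex := expand b x n
  have ey := expand b y n
  have ez := expand b z n
  rw [Nat.div_eq_of_lt h0.1, zero_mul, add_zero] at ex
  rw [Nat.div_eq_of_lt h1.1, zero_mul, add_zero] at ey
  rw [Nat.div_eq_of_lt h2.1, zero_mul, add_zero] at ez
  let dx : ℕ → ℕ := fun j => if j < n then x / b ^ j % b + z / b ^ j % b else 0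
  let dy : ℕ → ℕ := fun j => if j < n then 2 * (y / b ^ j % b) else 0
  have hdx : ∀ j, dx j < b := by
    intro j
    simp only [dx]
    split_ifs with hj
    · have := h0.2.2 j hj; have := h2.2.2 j hj; omega
    · omega
  have hdy : ∀ j, dy j < b := by
    intro j
    simp only [dy]
    split_ifs with hj
    · exact h1.2.2 j hj
    · omega
  have e1 : ∑ j ∈ range n, dx j * b ^ j = x + z := by
    conv_rhs => rw [ex, ez]
    rw [← sum_add_distrib]
    refine sum_congr rfl fun j hj => ?_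
    simp only [dx, if_pos (mem_range.mp hj)]
    ring
  have e2 : ∑ j ∈ range n, dy j * b ^ j = 2 * y := by
    conv_rhs => rw [ey]
    rw [mul_sum]
    refine sum_congr rfl fun j hj => ?_
    simp only [dy, if_pos (mem_range.mp hj)]
    ring
  have e3 : ∀ j < n, x / b ^ j % b + z / b ^ j % b = 2 * (y / b ^ j % b) := by
    intro j hj
    have g1 := digit b (by omega) dx hdx n 0 j hj
    have g2 := digit b (by omega) dy hdy n 0 j hj
    rw [zero_mul, add_zero] at g1 g2
    rw [e1, hsum, ← e2] at g1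
    have g3 := g1.symm.trans g2
    simpa only [dx, dy, if_pos hj] using g3
  have e4 : ∑ j ∈ range n, ((x / b ^ j % b : ℕ) - (z / b ^ j % b : ℕ) : ℤ) ^ 2 = 0 := by
    have g1 : ∀ j ∈ range n, ((x / b ^ j % b : ℕ) - (z / b ^ j % b : ℕ) : ℤ) ^ 2 =
        2 * ((x / b ^ j % b : ℕ) : ℤ) ^ 2 + 2 * ((z / b ^ j % b : ℕ) : ℤ) ^ 2 - 4 * ((y / b ^ j % b : ℕ) : ℤ) ^ 2 := by
      intro j hj
      have g2 := e3 j (mem_range.mp hj)
      have g3 : ((x / b ^ j % b : ℕ) : ℤ) + ((z / b ^ j % b : ℕ) : ℤ) = 2 * ((y / b ^ j % b : ℕ) : ℤ) := by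
        exact_mod_cast g2
      have g4 : ((z / b ^ j % b : ℕ) : ℤ) = 2 * ((y / b ^ j % b : ℕ) : ℤ) - ((x / b ^ j % b : ℕ) : ℤ) := by linarith
      rw [g4]; ring
    rw [sum_congr rfl g1, sum_sub_distrib, sum_add_distrib, ← mul_sum, ← mul_sum, ← mul_sum]
    have a1 : (∑ j ∈ range n, ((x / b ^ j % b : ℕ) : ℤ) ^ 2) = r := by exact_mod_cast h0.2.1
    have a2 : (∑ j ∈ range n, ((z / b ^ j % b : ℕ) : ℤ) ^ 2) = r := by exact_mod_cast h2.2.1
    have a3 : (∑ j ∈ range n, ((y / b ^ j % b : ℕ) : ℤ) ^ 2) = r := by exact_mod_cast h1.2.1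
    rw [a1, a2, a3]; ring
  have e5 : ∀ j ∈ range n, x / b ^ j % b = z / b ^ j % b := by
    intro j hj
    have g1 := (sum_eq_zero_iff_of_nonneg (fun i _ => sq_nonneg _)).mp e4 j hj
    have g2 := pow_eq_zero_iff (two_ne_zero) |>.mp g1
    have g3 : ((x / b ^ j % b : ℕ) : ℤ) = ((z / b ^ j % b : ℕ) : ℤ) := by linarith
    exact_mod_cast g3
  have e6 : x = z := by
    rw [ex, ez]
    exact sum_congr rfl fun j hj => by rw [e5 j hj]
  omega

/-- the numbers with small digits -/
def smallD (b n : ℕ) : Finset ℕ := (range (b ^ n)).filter (fun x => ∀ j < n, 2 * (x / b ^ j % b) < b)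

lemma smallD_card (b n : ℕ) (hb : 2 ≤ b) : ((b + 1) / 2) ^ n ≤ (smallD b n).card := by
  have h1 : (univ : Finset (Fin n → Fin ((b + 1) / 2))).card = ((b + 1) / 2) ^ n := by simp
  rw [← h1]
  refine card_le_card_of_injOn
    (fun c => ∑ j ∈ range n, (if h : j < n then (c ⟨j, h⟩ : ℕ) else 0) * b ^ j) ?_ ?_
  · intro c _
    let d : ℕ → ℕ := fun j => if h : j < n then (c ⟨j, h⟩ : ℕ) else 0
    have hd2 : ∀ j, 2 * d j < b := by
      intro j
      simp only [d]
      split_ifs with h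
      · have := (c ⟨j, h⟩).2; omega
      · omega
    have hd : ∀ j, d j < b := fun j => by have := hd2 j; omega
    simp only [smallD, coe_filter, mem_range, Set.mem_ofPred_eq]
    refine ⟨sum_lt_pow b (by omega) d hd n, fun j hj => ?_⟩
    have g := digit b (by omega) d hd n 0 j hj
    rw [zero_mul, add_zero] at g
    have : 2 * ((∑ j ∈ range n, d j * b ^ j) / b ^ j % b) < b := by rw [g]; exact hd2 j
    exact this
  · intro c _ c' _ hcc
    simp only at hcc
    funext j
    have hh : ∀ (c : Fin n → Fin ((b + 1) / 2)),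
        (∑ j ∈ range n, (if h : j < n then (c ⟨j, h⟩ : ℕ) else 0) * b ^ j) / b ^ (j : ℕ) % b = c j := by
      intro c
      let d : ℕ → ℕ := fun j => if h : j < n then (c ⟨j, h⟩ : ℕ) else 0
      have hd : ∀ j, d j < b := by
        intro j
        simp only [d]
        split_ifs with h
        · have := (c ⟨j, h⟩).2; omega
        · omega
      have g := digit b (by omega) d hd n 0 j j.2
      rw [zero_mul, add_zero] at g
      have g2 : d j = c j := by simp only [d]; rw [dif_pos j.2]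
      rw [g2] at g
      exact g
    have h2 := hh c
    rw [hcc, hh c'] at h2
    exact Fin.ext h2.symm

theorem sharp (b n : ℕ) (hb : 2 ≤ b) (hn : 1 ≤ n) :
    ∃ A, IsLevel b n A ∧ APFree 3 A ∧ ((b + 1) / 2) ^ n ≤ A.card * (n * b ^ 2) := by
  classical
  have hmap : ∀ x ∈ smallD b n, ∑ j ∈ range n, (x / b ^ j % b) ^ 2 ∈ range (n * b ^ 2) := by
    intro x hx
    rw [mem_range]
    obtain ⟨-, h2⟩ := mem_filter.mp hx
    calc ∑ j ∈ range n, (x / b ^ j % b) ^ 2 < ∑ j ∈ range n, b ^ 2 := by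
          refine sum_lt_sum_of_nonempty ⟨0, by simp; omega⟩ fun j _ => ?_
          exact Nat.pow_lt_pow_left (Nat.mod_lt _ (by omega)) two_ne_zero
      _ = n * b ^ 2 := by simp
  obtain ⟨r, hr, hmax⟩ := exists_max_image (range (n * b ^ 2)) (fun r => (beh b n r).card)
    ⟨0, by rw [mem_range]; positivity⟩
  refine ⟨beh b n r, beh_level b n r, beh_free b n r hb, ?_⟩
  calc ((b + 1) / 2) ^ n ≤ (smallD b n).card := smallD_card b n hb
    _ = ∑ r ∈ range (n * b ^ 2), ((smallD b n).filter (fun x => ∑ j ∈ range n, (x / b ^ j % b) ^ 2 = r)).card :=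
        card_eq_sum_card_fiberwise hmap
    _ ≤ ∑ _r ∈ range (n * b ^ 2), (beh b n r).card := by
        refine sum_le_sum fun s hs => ?_
        refine le_trans (card_le_card ?_) (hmax s hs)
        intro x hx
        obtain ⟨h1, h2⟩ := mem_filter.mp hx
        obtain ⟨h3, h4⟩ := mem_filter.mp h1
        exact (mem_beh b n s x).mpr ⟨mem_range.mp h3, h2, h4⟩
    _ = (beh b n r).card * (n * b ^ 2) := by
        rw [sum_const, card_range, smul_eq_mul, mul_comm]

end Pool.Agent.H15LD
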